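import Pool.Agent.Helper34.ST.Basic

/-!
# Elementary facts on `Conn`
-/

set_option autoImplicit false

namespace Pool.Agent.Helper34.ST

variable {ι : Type}

theorem star_symm {r : ι → ι → Prop} {j : ℕ} {x y : ι} (h : Conn r j x y) : Conn r j y x := by
  induction h with
  | refl => exact Relation.ReflTransGen.refl
  | tail h1 h2 ih =>
    obtain ⟨w, hw1, hw2⟩ := h2
    exact Relation.ReflTransGen.head ⟨w, hw2, hw1⟩ ih

theorem star_step {r : ι → ι → Prop} {j : ℕ} {x y w : ι} (h1 : Pth r j x w) (h2 : Pth r j y w) :
    Conn r j x y :=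
  Relation.ReflTransGen.single ⟨w, h1, h2⟩

theorem star_three {r : ι → ι → Prop} {j : ℕ} {w w' : ι} (h : Conn (fun a b => r b a) j w w') :
    ∀ x y, Pth r j x w → Pth r j y w' → Conn r j x y := by
  induction h using Relation.ReflTransGen.head_induction_on with
  | refl =>
    intro x y h1 h2
    exact star_step h1 h2
  | head h1 _ ih =>
    intro x y hx hy
    obtain ⟨q, hq1, hq2⟩ := h1
    have e1 : Pth r j q _ := hq1.flip
    have e2 : Pth r j q _ := hq2.flip
    exact Relation.ReflTransGen.trans (star_step hx e1) (ih q y e2 hy)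

theorem st_STAR : ST_STAR := by
  intro ι r ho hi j
  refine ⟨fun x y h => star_symm h, ?_, fun w w' x y h hx hy => star_three h x y hx hy, ?_⟩
  · intro i x y w hij hx hy
    obtain ⟨w', hw⟩ := exists_pth_out ho (j - i) w
    have h1 := hx.append hw
    have h2 := hy.append hw
    rw [Nat.add_sub_cancel' hij] at h1 h2
    exact star_step h1 h2
  · intro w w' x y h hx hy
    exact star_three (r := fun a b => r b a) h w w' hx.flip hy.flip

end Pool.Agent.Helper34.ST
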